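import Mathlib
import Pool.Agent.Helper65.TT.Defs
import Pool.Agent.Helper65.TT.UB
import Pool.Agent.Helper65.TT.ExPlanar

set_option autoImplicit false

/-!
# The maximum tree thickness of connected planar triangle-free graphs

`f(n) = n / 4 + 1` (integer division) for every `n ≥ 1`.

Upper bound: a connected planar triangle-free graph is an edge-disjoint union of a spanning tree `T`
and a forest `F` (Euler's formula and the arboricity theorem of Nash-Williams, both proved in the
helper files); when such a pair is chosen well by exchanging edges, `F` has at most `n / 4`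
components with edges.

Lower bound: `n / 4` disjoint 4-cycles joined in a row.
-/

namespace Pool.Agent.Results.MP_e7aab5_co.PlanarTreeThickness

open SimpleGraph Pool.Agent.Helper65.TT

/-- For every `n ≥ 1` the largest tree thickness of a connected planar triangle-free graph with `n`
vertices is `n / 4 + 1` (integer division). -/
theorem result (n : ℕ) (hn : 1 ≤ n) :
    IsGreatest {t : ℕ | ∃ G : SimpleGraph (Fin n),
      G.Connected ∧ IsPlanar G ∧ G.CliqueFree 3 ∧ treeThickness G = t} (n / 4 + 1) := by
  constructor
  · refine ⟨Ex.A n, Ex.connected hn, Ex.isPlanar hn, Ex.cliqueFree n, ?_⟩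
    obtain ⟨t, ht, hH⟩ :=
      decomposition_of_planar (Ex.connected hn) (Ex.cliqueFree n) (Ex.isPlanar hn)
    rw [Fintype.card_fin] at ht
    apply le_antisymm
    · exact (Nat.sInf_le hH).trans ht
    · have hne : {t | ∃ H : Fin t → (Ex.A n).Subgraph, IsTreeDecomposition (Ex.A n) H}.Nonempty :=
        ⟨t, hH⟩
      obtain ⟨H, h⟩ := Nat.sInf_mem hne
      exact Ex.lower hn h
  · rintro t ⟨G, hG, hpl, hfree, rfl⟩
    have := thickness_le_of_planar hG hfree hpl
    rwa [Fintype.card_fin] at this

end Pool.Agent.Results.MP_e7aab5_co.PlanarTreeThickness
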